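import Mathlib
import Pool.Agent.N906.QP.All

/-!
# Vojta's inequality for finite subsets of the projective line over a number field: the exact size, up to the second order
# term, of the sets of the points with small counting function

`K` is a number field of degree `d`, `α_1, ..., α_q` (`q ≥ 2`) are different points of `P¹(K)`, `T` is a finite set of
primes, `0 < κ < 6/7` and `c` real. The number `V(B)` of the points `x` of `P¹(K)` of height at most `B`, different from the
`α_l`, with `N_T(x) ≤ (q - κ) h(x) + c` satisfies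

  `log V(B) = d (2 - κ) log B + (√(8 q κ d) + o(1)) √(log B / log log B)`.
-/

set_option autoImplicit false

namespace Pool.Agent.Results.MP_4d5ce1_nt.ExceptionsSecondOrder

open NumberField IsDedekindDomain Filter Topology

section

variable {K : Type} [Field K] [NumberField K]

/-- the absolute logarithmic height of a point (`Height.logHeight` is relative to `K`) -/
noncomputable def height (x : Projectivization K (Fin 2 → K)) : ℝ :=
  Height.logHeight x.rep / (Module.finrank ℚ K : ℝ)

/-- the local height `λ_v(a, x)` for a prime `v`: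
`log (max |x_i|_v max |a_i|_v / |x_0 a_1 - x_1 a_0|_v)`, with the absolute values of `K` normalised relative to `K`, divided
by `[K : ℚ]` -/
noncomputable def localHeight (v : HeightOneSpectrum (𝓞 K)) (a : Fin 2 → K)
    (x : Projectivization K (Fin 2 → K)) : ℝ :=
  Real.log (max (FinitePlace.mk v (x.rep 0)) (FinitePlace.mk v (x.rep 1)) *
    max (FinitePlace.mk v (a 0)) (FinitePlace.mk v (a 1)) /
      FinitePlace.mk v (x.rep 0 * a 1 - x.rep 1 * a 0)) / (Module.finrank ℚ K : ℝ)

/-- the counting function `N_T(x)`, the sum over `l` and over the primes `v` outside `T` of the truncated local heights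
`min (λ_v(α_l, x), log N(v) / [K : ℚ])` -/
noncomputable def counting (T : Set (HeightOneSpectrum (𝓞 K))) {q : ℕ} (α : Fin q → Fin 2 → K)
    (x : Projectivization K (Fin 2 → K)) : ℝ :=
  ∑ l, ∑ᶠ (v : HeightOneSpectrum (𝓞 K)) (_ : v ∉ T),
    min (localHeight v (α l) x) (Real.log (Ideal.absNorm v.asIdeal : ℝ) / (Module.finrank ℚ K : ℝ))

/-- the points `x` different from the `α_l`, of height at most `B`, with `N_T(x) ≤ (q - κ) h(x) + c` -/
def Points (T : Set (HeightOneSpectrum (𝓞 K))) {q : ℕ} (α : Fin q → Fin 2 → K) (κ c B : ℝ) :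
    Set (Projectivization K (Fin 2 → K)) :=
  {x | (∀ l, x.rep 0 * α l 1 - x.rep 1 * α l 0 ≠ 0) ∧ Real.exp (height x) ≤ B ∧
    counting T α x ≤ ((q : ℝ) - κ) * height x + c}

end

/-- **Theorem.** Let `K` be a number field of degree `d`, `T` a finite set of primes, `α_1, ..., α_q` (`q ≥ 2`) different
points of `P¹(K)`, `0 < κ < 6/7` and `c` real. The number `V(B)` of the points `x` of `P¹(K)` different from the `α_l`,
of height at most `B`, with `N_T(x) ≤ (q - κ) h(x) + c` is finite, and
`(log V(B) - d (2 - κ) log B) / √(log B / log log B)` tends to `√(8 q κ d)`. -/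
theorem result : ∀ (K : Type) [Field K] [NumberField K] (q : ℕ) (T : Set (HeightOneSpectrum (𝓞 K)))
    (α : Fin q → Fin 2 → K) (κ c : ℝ), T.Finite → 2 ≤ q → (∀ l, α l ≠ 0) →
    (∀ l l', l ≠ l' → α l 0 * α l' 1 - α l 1 * α l' 0 ≠ 0) → 0 < κ → κ < 6 / 7 →
    (∀ B : ℝ, (Points T α κ c B).Finite) ∧
    Tendsto (fun B : ℝ => (Real.log ((Points T α κ c B).ncard : ℝ) -
        Module.finrank ℚ K * (2 - κ) * Real.log B) / √(Real.log B / Real.log (Real.log B))) atTop
      (𝓝 √(8 * q * κ * Module.finrank ℚ K)) := by
  intro K _ _ q T α κ c hT hq hα hα' hκ0 hκ1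
  exact Pool.Agent.N906.KG.finq_all K q hq T α κ c hT hq hα hα' hκ0 hκ1 (by linarith)

end Pool.Agent.Results.MP_4d5ce1_nt.ExceptionsSecondOrder
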