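import Pool.Agent.N906.EQ.P1Law

/-!
# The limit law of the two sides of Vojta's inequality

`K` is a number field of degree `d`, `T` a finite set of primes, `α_1, …, α_q` (`q ≥ 3`) are distinct
points of the projective line over `K`, and `N_T(x) = ∑_{v ∉ T} ∑_l λ⁽¹⁾_v(α_l, x)`. The values
`q h(x) - N_T(x)` have a limit law, both when the points are ordered by their height and when all
points, of whatever height, are ordered by `N_T`. In particular the number of the points with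
`exp N_T(x) ≤ X` is asymptotic to a constant times `X ^ (2 d / q)`.
-/

set_option autoImplicit false

namespace Pool.Agent.Results.MP_4d5ce1_nt.LimitLaw

open NumberField IsDedekindDomain MeasureTheory Filter Topology

variable {K : Type} [Field K] [NumberField K]

/-- the absolute logarithmic height (the height of Mathlib is relative to `K`) -/
noncomputable def height (P : Projectivization K (Fin 2 → K)) : ℝ :=
  Height.logHeight P.rep / (Module.finrank ℚ K : ℝ)

/-- the sum over the primes `v ∉ T` and over `l` of the truncated local heights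
`λ⁽¹⁾_v(α_l, x) = min (λ_v(α_l, x), log N(v) / d)` -/
noncomputable def counting (T : Set (HeightOneSpectrum (𝓞 K))) {q : ℕ} (α : Fin q → Fin 2 → K)
    (P : Projectivization K (Fin 2 → K)) : ℝ :=
  ∑ᶠ (v : HeightOneSpectrum (𝓞 K)) (_ : v ∉ T), ∑ l : Fin q,
    min
      (Real.log
          (max (FinitePlace.mk v (P.rep 0)) (FinitePlace.mk v (P.rep 1)) *
            max (FinitePlace.mk v (α l 0)) (FinitePlace.mk v (α l 1)) /
            FinitePlace.mk v (P.rep 0 * α l 1 - P.rep 1 * α l 0)) /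
        (Module.finrank ℚ K : ℝ))
      (Real.log (Ideal.absNorm v.asIdeal : ℝ) / (Module.finrank ℚ K : ℝ))

/-- the points of the line different from all the `α_l` -/
def Points {q : ℕ} (α : Fin q → Fin 2 → K) : Set (Projectivization K (Fin 2 → K)) :=
  {P | ∀ l, P.rep 0 * α l 1 - P.rep 1 * α l 0 ≠ 0}

/-- `q h(x) - N_T(x)` -/
noncomputable def defect (T : Set (HeightOneSpectrum (𝓞 K))) {q : ℕ} (α : Fin q → Fin 2 → K)
    (P : Projectivization K (Fin 2 → K)) : ℝ :=
  q * height P - counting T α P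

open Pool.Agent.N906.EQ Pool.Agent.H691R3 Pool.Agent.TH876.Loc

open Classical in
theorem counting_eq (T : Set (HeightOneSpectrum (𝓞 K))) {q : ℕ} (α : Fin q → Fin 2 → K)
    (P : Projectivization K (Fin 2 → K)) :
    (Module.finrank ℚ K : ℝ) * counting T α P = NTd T (Lf α) P.rep := by
  have hd : (0 : ℝ) < Module.finrank ℚ K := by exact_mod_cast (Module.finrank_pos (R := ℚ) (M := K))
  unfold counting NTd
  rw [mul_finsum]
  refine finsum_congr fun v => ?_
  rw [finsum_eq_if, finsum_eq_if]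
  split_ifs with hv
  · rw [mul_zero]
  rw [Finset.mul_sum]
  refine Finset.sum_congr rfl fun l _ => ?_
  rw [mul_min_of_nonneg _ _ hd.le, mul_div_cancel₀ _ hd.ne', mul_div_cancel₀ _ hd.ne', lamF_Lf]
  rfl

theorem off_iff {q : ℕ} (α : Fin q → Fin 2 → K) (P : Projectivization K (Fin 2 → K)) :
    P ∈ Points α ↔ ∀ l, lfK (Lf α l) P.rep ≠ 0 := by
  refine forall_congr' fun l => ?_
  rw [lfK_Lf]

theorem defect_eq (T : Set (HeightOneSpectrum (𝓞 K))) {q : ℕ} (α : Fin q → Fin 2 → K)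
    (P : Om (Lf α)) : defect T α P.1 = Er T α P := by
  have hd : (Module.finrank ℚ K : ℝ) ≠ 0 := by
    exact_mod_cast (Module.finrank_pos (R := ℚ) (M := K)).ne'
  unfold defect Er height
  rw [← counting_eq]
  field_simp

theorem finsum_eq {q : ℕ} (α : Fin q → Fin 2 → K) (T : Set (HeightOneSpectrum (𝓞 K)))
    {ρ : Om (Lf α) → ℝ} (hfin : ∀ B : ℝ, {P | ρ P ≤ B}.Finite) (f : ℝ → ℝ) (B : ℝ)
    (S : Set (Projectivization K (Fin 2 → K)))
    (hS : ∀ P : Om (Lf α), P.1 ∈ S ↔ ρ P ≤ B) :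
    ({P ∈ Points α | P ∈ S}).Finite ∧
      ∑ᶠ P ∈ {P ∈ Points α | P ∈ S}, f (defect T α P) = SS ρ (Er T α) f B := by
  classical
  set val : Om (Lf α) → Projectivization K (Fin 2 → K) := fun P => P.1 with hval
  have hinj : Function.Injective val := Subtype.val_injective
  have himg : {P ∈ Points α | P ∈ S} = val '' {P : Om (Lf α) | ρ P ≤ B} := by
    ext P
    constructor
    · rintro ⟨h1, h2⟩
      exact ⟨⟨P, (off_iff α P).1 h1⟩, (hS ⟨P, (off_iff α P).1 h1⟩).1 h2, rfl⟩
    · rintro ⟨P', h1, rfl⟩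
      exact ⟨(off_iff α P'.1).2 P'.2, (hS P').2 h1⟩
  rw [himg]
  refine ⟨(hfin B).image _, ?_⟩
  rw [finsum_mem_image hinj.injOn, finsum_mem_eq_finite_toFinset_sum _ (hfin B)]
  unfold SS
  rw [tsum_eq_sum (s := (hfin B).toFinset)]
  · refine Finset.sum_congr rfl fun P hP => ?_
    have hP' : ρ P ≤ B := (hfin B).mem_toFinset.1 hP
    rw [if_pos hP', ← defect_eq]
  · intro P hP
    exact if_neg fun h => hP ((hfin B).mem_toFinset.2 h)

/-- Let `K` be a number field of degree `d`, `T` a finite set of primes and `α_1, …, α_q` (`q ≥ 3`)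
distinct points of the projective line over `K`, and put `E(x) = q h(x) - N_T(x)`, where
`N_T(x) = ∑_{v ∉ T} ∑_l λ⁽¹⁾_v(α_l, x)`. Only finitely many points `x` different from the `α_l` have
`h(x) ≤ Λ`, and only finitely many have `N_T(x) ≤ Λ`. There is a finite Borel measure `μ` on the
line, supported on some half line `[-c₀, ∞)` and with `μ((t, ∞)) > 0` for all `t`, such that
`∫ e ^ (c s) dμ(s) < ∞` for all `c < d`, and
(1) for every continuous function `f` of at most polynomial growth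
`e ^ (-2 d Λ) ∑_{h(x) ≤ Λ} f (E(x))` tends to `∫ f dμ`;
(2) for every bounded continuous function `f` the sum over all points, of whatever height,
`e ^ (-2 d Λ / q) ∑_{N_T(x) ≤ Λ} f (E(x))` tends to `∫ f(s) e ^ (2 d s / q) dμ(s)`. -/
theorem result :
    ∀ (K : Type) [Field K] [NumberField K]
      (T : Set (HeightOneSpectrum (𝓞 K))), T.Finite →
      ∀ (q : ℕ), 3 ≤ q → ∀ (α : Fin q → Fin 2 → K),
        (∀ i j, i ≠ j → α i 0 * α j 1 - α i 1 * α j 0 ≠ 0) →
        (∀ Λ : ℝ, {P ∈ Points α | height P ≤ Λ}.Finite ∧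
          {P ∈ Points α | counting T α P ≤ Λ}.Finite) ∧
        ∃ μ : Measure ℝ, IsFiniteMeasure μ ∧ (∃ c₀ : ℝ, μ (Set.Iio (-c₀)) = 0) ∧
          (∀ t : ℝ, 0 < μ (Set.Ioi t)) ∧
          (∀ c : ℝ, c < Module.finrank ℚ K → Integrable (fun s => Real.exp (c * s)) μ) ∧
          (∀ (f : ℝ → ℝ) (A : ℝ) (k : ℕ), Continuous f → (∀ s, |f s| ≤ A * (1 + |s|) ^ k) →
            Tendsto (fun Λ : ℝ => Real.exp (-(2 * Module.finrank ℚ K * Λ)) *
              ∑ᶠ P ∈ {P ∈ Points α | height P ≤ Λ}, f (defect T α P)) atTop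
              (𝓝 (∫ s, f s ∂μ))) ∧
          (∀ f : ℝ → ℝ, Continuous f → (∃ M : ℝ, ∀ s, |f s| ≤ M) →
            Tendsto (fun Λ : ℝ => Real.exp (-(2 * Module.finrank ℚ K / q * Λ)) *
              ∑ᶠ P ∈ {P ∈ Points α | counting T α P ≤ Λ}, f (defect T α P)) atTop
              (𝓝 (∫ s, f s * Real.exp (2 * Module.finrank ℚ K / q * s) ∂μ))) := by
  intro K _ _ T hT q hq α hα
  have hd0 : 0 < Module.finrank ℚ K := Module.finrank_pos (R := ℚ) (M := K)
  have hd : (0 : ℝ) < Module.finrank ℚ K := by exact_mod_cast hd0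
  have hq0 : (0 : ℝ) < q := by
    have : 0 < q := by omega
    exact_mod_cast this
  obtain ⟨hfin1, hfin2, μ, h1, h2, h3, h4, h5, h6⟩ := p1_law hq T hT α hα
  have hS1 : ∀ Λ : ℝ, ∀ P : Om (Lf α), P.1 ∈ {P | height P ≤ Λ} ↔
      rho (Lf α) P ≤ Real.exp Λ := by
    intro Λ P
    rw [rho_le_iff _ _ (Real.exp_pos _).le, ← Real.log_le_log_iff (Height.mulHeight_pos _)
      (by positivity), ← Height.logHeight_eq_log_mulHeight, Real.log_pow, Real.log_exp]
    show Height.logHeight P.1.rep / (Module.finrank ℚ K : ℝ) ≤ Λ ↔ _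
    rw [div_le_iff₀ hd, mul_comm]
  have hS2 : ∀ Λ : ℝ, ∀ P : Om (Lf α), P.1 ∈ {P | counting T α P ≤ Λ} ↔
      rn (rho (Lf α)) (Er T α) q P ≤ Real.exp (Λ / q) := by
    intro Λ P
    rw [rn_le_iff (by omega) T α P (Real.exp_pos _), Real.log_exp, ← counting_eq]
    show counting T α P.1 ≤ Λ ↔ _
    rw [mul_assoc, mul_div_cancel₀ _ hq0.ne', mul_le_mul_iff_right₀ hd]
  refine ⟨fun Λ => ⟨(finsum_eq α T hfin1 (fun _ => 0) _ _ (hS1 Λ)).1,
    (finsum_eq α T hfin2 (fun _ => 0) _ _ (hS2 Λ)).1⟩, μ, h1, h2, h3, h4, ?_, ?_⟩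
  · intro f A k hf hfA
    refine ((h5 f A k hf hfA).comp Real.tendsto_exp_atTop).congr fun Λ => ?_
    show SS (rho (Lf α)) (Er T α) f (Real.exp Λ) /
      Real.exp Λ ^ ((2 * Module.finrank ℚ K : ℕ) : ℝ) = _
    have h7 := (finsum_eq α T hfin1 f _ _ (hS1 Λ)).2
    have h8 : Real.exp Λ ^ ((2 * Module.finrank ℚ K : ℕ) : ℝ) =
        Real.exp (2 * Module.finrank ℚ K * Λ) := by
      rw [← Real.exp_mul]
      congr 1
      push_cast
      ring
    rw [h8, Real.exp_neg, inv_mul_eq_div, ← h7]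
    rfl
  · intro f hf hM
    have ht : Tendsto (fun Λ : ℝ => Real.exp (Λ / q)) atTop atTop :=
      Real.tendsto_exp_atTop.comp (tendsto_id.atTop_div_const hq0)
    refine ((h6 f hf hM).comp ht).congr fun Λ => ?_
    show SS (rn (rho (Lf α)) (Er T α) q) (Er T α) f (Real.exp (Λ / q)) /
      Real.exp (Λ / q) ^ ((2 * Module.finrank ℚ K : ℕ) : ℝ) = _
    have h7 := (finsum_eq α T hfin2 f _ _ (hS2 Λ)).2
    have h8 : Real.exp (Λ / q) ^ ((2 * Module.finrank ℚ K : ℕ) : ℝ) =
        Real.exp (2 * Module.finrank ℚ K / q * Λ) := by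
      rw [← Real.exp_mul]
      congr 1
      push_cast
      ring
    rw [h8, Real.exp_neg, inv_mul_eq_div, ← h7]
    rfl

end Pool.Agent.Results.MP_4d5ce1_nt.LimitLaw
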