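import Pool.Agent.N746.RK.Glue

/-!
# The abc conjecture over a number field and the points `∞`, `k ^ (1 / n)`

Let `K` be a number field and let `P ∈ K[X]` be a polynomial without multiple roots, of degree `q - 1`.
The inequality of the problem for the `q` points `∞` and the zeros of `P`, and the points `x ∈ K` of the
projective line, is `(q - 2 - ε) h(x) ≤ ∑ log N(v) / [K : ℚ] + C`, where the sum is over the primes `v`
(outside of a finite set `T`) with `|x|_v > 1` or `|P(x)|_v < 1`. For `P = X (X - 1)` this is the abc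
conjecture over `K`.

Let `n ≥ 2` and `k = m z ^ n`, where `z ∈ K` is not zero, and `m ≠ 0` is an integer with `m ≡ 1 (mod n)`,
or an integer not divisible by `n`, if `n` is a prime. Then the inequality for the `n + 1` points `∞` and
`α`, `α ^ n = k`, is equivalent to the abc conjecture over `K`, whether or not the `α` are in `K`. So each
inequality for a finite set which contains these points implies the abc conjecture over `K`.

Proof. Let `k ≡ 1 (mod n)`, `k ≠ 1`. The Newton map `x ↦ ((n - 1) x ^ n + k) / (n x ^ (n - 1))` of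
`x ^ n - k` is ramified only over `∞` and the `α`, so the inequality holds for `0`, `∞` and the `α`. For
`k = n t + 1 > 0` the map `w ↦ (n t) ^ t / (k ^ t w (1 - w ^ n) ^ t)` is ramified only over `0, ∞` and the
`α`, and it maps `0`, `1` and `∞` to `0` and `∞`. For `k = 1 - n t < 0` one takes
`w ↦ (n t - 1) ^ t (1 - w ^ n) ^ t / ((n t) ^ t w)`.
-/

set_option autoImplicit false

namespace Pool.Agent.Results.MP_4d5ce1_nt.RootsOverNumberFields

open NumberField IsDedekindDomain Polynomial

variable {K : Type} [Field K] [NumberField K]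

/-- the absolute logarithmic height `h(x)` of `x`, that is of the point `[x : 1]` -/
noncomputable def height (x : K) : ℝ :=
  (∑ w : InfinitePlace K, (w.mult : ℝ) * Real.log (max 1 (w x)) +
    ∑ᶠ v : HeightOneSpectrum (𝓞 K), Real.log (max 1 (FinitePlace.mk v x))) /
    (Module.finrank ℚ K : ℝ)

/-- the truncated counting function of `x` with respect to `∞` and the zeros of `P`: the sum of
`log N(v) / [K : ℚ]` over the primes `v` outside of `T` with `|x|_v > 1` or `|P(x)|_v < 1` -/
noncomputable def count (T : Set (HeightOneSpectrum (𝓞 K))) (P : K[X]) (x : K) : ℝ :=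
  (∑ᶠ (v : HeightOneSpectrum (𝓞 K))
      (_ : v ∉ T ∧ (1 < FinitePlace.mk v x ∨ FinitePlace.mk v (P.eval x) < 1)),
    Real.log (Ideal.absNorm v.asIdeal : ℝ)) / (Module.finrank ℚ K : ℝ)

/-- the inequality of the problem for `∞` and the zeros of `P`, in number `q = deg P + 1`, the primes of
`T` being left out: for all `ε > 0` there is `C` with `(q - 2 - ε) h(x) ≤ count T P x + C` for all
`x ∈ K` with `P(x) ≠ 0` -/
def Ineq (T : Set (HeightOneSpectrum (𝓞 K))) (P : K[X]) : Prop :=
  ∀ ε : ℝ, 0 < ε → ∃ C : ℝ, ∀ x : K, P.eval x ≠ 0 →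
    ((P.natDegree : ℝ) - 1 - ε) * height x ≤ count T P x + C

open Pool.Agent.N757.RD Pool.Agent.N757.TL Pool.Agent.N746.RK

theorem height_mul (x : K) : dg K * height x = D x := by
  have e : height x = D x / dg K := by
    unfold height
    rw [D_eq]
    have h1 : ∀ w : InfinitePlace K, Real.log (max 1 (w x)) = Real.posLog (w x) := fun w =>
      log_max_one _ (apply_nonneg _ _)
    have h2 : ∀ v : HeightOneSpectrum (𝓞 K), Real.log (max 1 (FinitePlace.mk v x)) =
        Real.posLog (FinitePlace.mk v x) := fun v => log_max_one _ (apply_nonneg _ _)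
    simp only [h1, h2]
    rfl
  rw [e, mul_div_cancel₀ _ dg_pos.ne']

theorem count_mul (T : Set (HeightOneSpectrum (𝓞 K))) (P : K[X]) (x : K) :
    dg K * count T P x = W {v | v ∉ T ∧ v ∈ J P x} := by
  rw [show count T P x = W {v | v ∉ T ∧ v ∈ J P x} / dg K from rfl, mul_div_cancel₀ _ dg_pos.ne']

theorem ineq_iff {T : Set (HeightOneSpectrum (𝓞 K))} (hT : T.Finite) {P : K[X]}
    (hP : 2 ≤ P.natDegree) : Ineq T P ↔ V P := by
  have hd := dg_pos (K := K)
  obtain ⟨q, hq⟩ : ∃ q : ℝ, q = (P.natDegree : ℝ) - 1 := ⟨_, rfl⟩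
  have hq1 : 1 ≤ q := by
    have : (2 : ℝ) ≤ P.natDegree := by exact_mod_cast hP
    linarith
  have hWT := W_nonneg T
  have b1 : ∀ x : K, P.eval x ≠ 0 → dg K * count T P x ≤ W (J P x) := by
    intro x hx
    rw [count_mul]
    exact W_mono (fun v hv => hv.2) (finite_J hx)
  have b2 : ∀ x : K, P.eval x ≠ 0 → W (J P x) ≤ dg K * count T P x + W T := by
    intro x hx
    rw [count_mul]
    have f1 : {v | v ∉ T ∧ v ∈ J P x}.Finite := (finite_J hx).subset fun v hv => hv.2
    refine (W_mono (B := {v | v ∉ T ∧ v ∈ J P x} ∪ T) ?_ (f1.union hT)).trans (W_union f1 hT)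
    intro v hv
    by_cases h : v ∈ T
    · exact Or.inr h
    · exact Or.inl ⟨h, hv⟩
  constructor
  · intro h ε hε
    obtain ⟨C, hC⟩ := h (ε / (1 + ε)) (by positivity)
    refine ⟨(1 + ε) * (dg K * |C|), fun x hx => ?_⟩
    have h1 := hC x hx
    have h2 : dg K * ((q - ε / (1 + ε)) * height x) ≤ dg K * (count T P x + C) := by
      rw [hq]
      exact mul_le_mul_of_nonneg_left h1 hd.le
    have h3 : (q - ε / (1 + ε)) * D x ≤ W (J P x) + dg K * |C| := by
      have e1 : dg K * ((q - ε / (1 + ε)) * height x) = (q - ε / (1 + ε)) * D x := by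
        rw [← height_mul]; ring
      have e2 : dg K * C ≤ dg K * |C| := mul_le_mul_of_nonneg_left (le_abs_self C) hd.le
      have e3 := b1 x hx
      rw [e1] at h2
      linarith
    have h4 : (1 + ε) * ((q - ε / (1 + ε)) * D x) ≤ (1 + ε) * (W (J P x) + dg K * |C|) :=
      mul_le_mul_of_nonneg_left h3 (by linarith)
    have h5 : (1 + ε) * ((q - ε / (1 + ε)) * D x) = (q + ε * (q - 1)) * D x := by
      field_simp
      ring
    have h6 : 0 ≤ ε * (q - 1) * D x := by
      have := D_nonneg x
      have h8 : 0 ≤ q - 1 := by linarith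
      positivity
    rw [← hq]
    rw [h5] at h4
    nlinarith
  · intro h ε hε
    obtain ⟨C, hC⟩ := h (ε / q) (by positivity)
    refine ⟨(W T + |C|) / dg K, fun x hx => ?_⟩
    have h1 := hC x hx
    rw [← hq] at h1
    rw [← hq]
    have hD := D_nonneg x
    have hq0 : 0 < q := by linarith
    have hW := W_nonneg (J P x)
    have h2 : (q - ε) * D x ≤ W (J P x) + |C| := by
      rcases le_or_gt q ε with h0 | h0
      · have : (q - ε) * D x ≤ 0 := mul_nonpos_of_nonpos_of_nonneg (by linarith) hD
        have := abs_nonneg C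
        linarith
      · have e1 : (1 + ε / q) * ((q - ε) * D x) ≤ (1 + ε / q) * (W (J P x) + |C|) := by
          have e2 : (1 + ε / q) * ((q - ε) * D x) = (q - ε * ε / q) * D x := by
            field_simp
            ring
          have e3 : 0 ≤ ε * ε / q * D x := by positivity
          have e4 : C ≤ (1 + ε / q) * |C| := by
            have := le_abs_self C
            have h9 : 0 ≤ ε / q * |C| := by positivity
            nlinarith
          rw [e2]
          nlinarith
        exact le_of_mul_le_mul_left e1 (by positivity)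
    have h3 := b2 x hx
    have h4 : dg K * ((q - ε) * height x) ≤ dg K * (count T P x + (W T + |C|) / dg K) := by
      have e1 : dg K * ((q - ε) * height x) = (q - ε) * D x := by
        rw [← height_mul]; ring
      have e2 : dg K * ((W T + |C|) / dg K) = W T + |C| := by field_simp
      rw [e1, mul_add, e2]
      linarith
    exact le_of_mul_le_mul_left h4 hd

/-- **The inequality for `∞` and the `n`-th roots of `k`, shifted by `c`, is equivalent to the abc
conjecture over `K`; the inequality for any larger set implies it.** -/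
theorem result (K : Type) [Field K] [NumberField K] (T T' : Set (HeightOneSpectrum (𝓞 K)))
    (hT : T.Finite) (hT' : T'.Finite) (n : ℕ) (hn : 2 ≤ n) (m : ℤ) (hm : m ≠ 0)
    (hmn : (n : ℤ) ∣ m - 1 ∨ (n.Prime ∧ ¬ (n : ℤ) ∣ m)) (z c : K) (hz : z ≠ 0) :
    (Ineq T ((X - C c) ^ n - C ((m : K) * z ^ n)) ↔ Ineq T' (X * (X - 1) : K[X])) ∧
    ∀ P : K[X], P ≠ 0 → ((X - C c) ^ n - C ((m : K) * z ^ n)) ∣ P →
      Ineq T P → Ineq T' (X * (X - 1) : K[X]) := by
  obtain ⟨Q, hQ⟩ : ∃ Q : K[X], Q = (X - C c) ^ n - C ((m : K) * z ^ n) := ⟨_, rfl⟩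
  have hdQ : Q.natDegree = n := by
    have e : Q = (X ^ n - C ((m : K) * z ^ n) : K[X]).comp (X - C c) := by rw [hQ]; simp
    rw [e, natDegree_comp, natDegree_X_sub_C, mul_one, natDegree_X_pow_sub_C]
  have key : V Q ↔ Ineq T' (X * (X - 1) : K[X]) := by
    rw [ineq_iff hT' natDegree_three.ge, V_three, hQ, V_root_shift hn]
    exact RT_iff hn hm hmn hz
  rw [← hQ]
  refine ⟨by rw [ineq_iff hT (by rw [hdQ]; exact hn)]; exact key, fun P hP hdvd h => ?_⟩
  have h2 : 2 ≤ Q.natDegree := by rw [hdQ]; exact hn
  rw [ineq_iff hT (h2.trans (natDegree_le_of_dvd hdvd hP))] at h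
  exact key.1 (V_dvd hP h2 hdvd h)

end Pool.Agent.Results.MP_4d5ce1_nt.RootsOverNumberFields
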