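import Pool.Agent.N753.SF.ProjMain

/-!
# One exceptional set in Vojta's inequality for all finite subsets of points of degree at most five

`K` is a number field. The conjecture concerns one finite subset `α_1, …, α_q` of the projective line
over a number field `k` and one finite set `S` of primes. Here one subset `E` of the projective line
over `K`, a power-saving proportion of all points, serves all number fields `k` containing `K`, all
finite sets `S` of primes of `k` and all finite subsets of the projective line over `k` whose points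
have degree at most five over `K`: for all points `x` of the line over `K` outside `E`, of whatever
height, one has `(q - ε) h(x) ≤ ∑_{v ∉ S} ∑_l λ⁽¹⁾_v(α_l, x) + C`. Only `C` depends on `k`, on `S`
and on the points.
-/

set_option autoImplicit false

namespace Pool.Agent.Results.MP_4d5ce1_nt.UniversalSetDegreeFive

open NumberField IsDedekindDomain

/-- the absolute logarithmic height (the height of Mathlib is relative to `K`) -/
noncomputable def height {K : Type} [Field K] [NumberField K] (x : Fin 2 → K) : ℝ :=
  Height.logHeight x / (Module.finrank ℚ K : ℝ)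

/-- the sum over the primes `v ∉ S` of `k` and over `l` of the truncated local heights
`λ⁽¹⁾_v(α_l, x) = min (λ_v(α_l, x), log N(v) / [k : ℚ])` -/
noncomputable def counting {k : Type} [Field k] [NumberField k] (S : Set (HeightOneSpectrum (𝓞 k)))
    {q : ℕ} (α : Fin q → Fin 2 → k) (x : Fin 2 → k) : ℝ :=
  ∑ᶠ (v : HeightOneSpectrum (𝓞 k)) (_ : v ∉ S), ∑ l : Fin q,
    min
      (Real.log
          (max (FinitePlace.mk v (x 0)) (FinitePlace.mk v (x 1)) *
            max (FinitePlace.mk v (α l 0)) (FinitePlace.mk v (α l 1)) /
            FinitePlace.mk v (x 0 * α l 1 - x 1 * α l 0)) /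
        (Module.finrank ℚ k : ℝ))
      (Real.log (Ideal.absNorm v.asIdeal : ℝ) / (Module.finrank ℚ k : ℝ))

/-- the degree over `K` of the point `α` of the projective line over `k` -/
noncomputable def degree (K : Type) [Field K] {k : Type} [Field k] [Algebra K k]
    (α : Fin 2 → k) : ℕ := (minpoly K (α 0 / α 1)).natDegree

open Pool.Agent.Y730.QP Pool.Agent.TH876.Loc in
theorem counting_eq {k : Type} [Field k] [NumberField k] (S : Set (HeightOneSpectrum (𝓞 k)))
    {q : ℕ} (α : Fin q → Fin 2 → k) (x : Fin 2 → k) :
    (Module.finrank ℚ k : ℝ) * counting S α x = cnt S α x := by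
  classical
  have hd : (0 : ℝ) < Module.finrank ℚ k := by exact_mod_cast (Module.finrank_pos (R := ℚ) (M := k))
  unfold counting cnt
  rw [mul_finsum]
  refine finsum_congr fun v => ?_
  rw [finsum_eq_if, finsum_eq_if]
  split_ifs with hv
  · rw [mul_zero]
  rw [Finset.mul_sum]
  refine Finset.sum_congr rfl fun l _ => ?_
  rw [mul_min_of_nonneg _ _ hd.le, mul_div_cancel₀ _ hd.ne', mul_div_cancel₀ _ hd.ne']
  have e : x 0 * α l 1 - x 1 * α l 0 = -Pool.Agent.TH876.KR.form (α l) x := by
    unfold Pool.Agent.TH876.KR.form
    ring
  have e2 : FinitePlace.mk v (x 0 * α l 1 - x 1 * α l 0) =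
      FinitePlace.mk v (Pool.Agent.TH876.KR.form (α l) x) := by
    rw [e]
    exact (FinitePlace.mk v).1.map_neg _
  rw [e2, mul_comm (max (FinitePlace.mk v (x 0)) (FinitePlace.mk v (x 1)))]
  rfl

theorem form_iff {k : Type} [Field k] {q : ℕ} (α : Fin q → Fin 2 → k) (x : Fin 2 → k) :
    (∀ l, x 0 * α l 1 - x 1 * α l 0 ≠ 0) ↔ ∀ i, Pool.Agent.TH876.KR.form (α i) x ≠ 0 := by
  refine forall_congr' fun l => ?_
  have e : x 0 * α l 1 - x 1 * α l 0 = -Pool.Agent.TH876.KR.form (α l) x := by
    unfold Pool.Agent.TH876.KR.form
    ring
  rw [e, Ne, neg_eq_zero]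

theorem finrank_eq (K k : Type) [Field K] [NumberField K] [Field k] [NumberField k] [Algebra K k] :
    (Module.finrank ℚ k : ℝ) = (Module.finrank ℚ K : ℝ) * (Module.finrank K k : ℝ) := by
  have hfd : FiniteDimensional K k := Module.Finite.of_restrictScalars_finite ℚ K k
  exact_mod_cast (Module.finrank_mul_finrank ℚ K k).symm

/-- the absolute height does not change under extensions -/
theorem height_ext {K k : Type} [Field K] [NumberField K] [Field k] [NumberField k] [Algebra K k]
    (x : Fin 2 → K) : Height.logHeight (fun j => algebraMap K k (x j)) =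
      (Module.finrank ℚ k : ℝ) * height x := by
  have hd : (0 : ℝ) < Module.finrank ℚ K := by exact_mod_cast (Module.finrank_pos (R := ℚ) (M := K))
  have e0 : (Module.finrank ℚ k : ℝ) * height x = (Module.finrank K k : ℝ) * Height.logHeight x := by
    unfold height
    rw [finrank_eq K k]
    field_simp
  rw [e0]
  by_cases h1 : x 1 = 0
  · by_cases h0 : x 0 = 0
    · have e1 : x = 0 := by
        funext i
        fin_cases i
        · exact h0
        · exact h1
      have e2 : (fun j => algebraMap K k (x j)) = 0 := by
        rw [e1]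
        funext i
        exact map_zero _
      rw [e2, e1, Height.logHeight_zero, Height.logHeight_zero, mul_zero]
    · have e1 : x = x 0 • (![1, 0] : Fin 2 → K) := by
        funext i
        fin_cases i
        · show x 0 = x 0 * 1
          ring
        · show x 1 = x 0 * 0
          rw [h1, mul_zero]
      have e2 : (fun j => algebraMap K k (x j)) =
          algebraMap K k (x 0) • (![1, 0] : Fin 2 → k) := by
        funext i
        fin_cases i
        · show algebraMap K k (x 0) = algebraMap K k (x 0) * 1
          ring
        · show algebraMap K k (x 1) = algebraMap K k (x 0) * 0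
          rw [h1, mul_zero, map_zero]
      have h0' : algebraMap K k (x 0) ≠ 0 := by
        rw [Ne, FaithfulSMul.algebraMap_eq_zero_iff]
        exact h0
      rw [e2, Height.logHeight_smul_eq_logHeight _ h0', e1,
        Height.logHeight_smul_eq_logHeight _ h0]
      have e3 : ∀ (L : Type) [Field L] [NumberField L],
          Height.logHeight (![1, 0] : Fin 2 → L) = 0 := by
        intro L _ _
        have := Height.logHeight₁_eq_logHeight (0 : L)
        rw [Height.logHeight₁_zero] at this
        rw [← Height.logHeight_comp_equiv (Equiv.swap (0 : Fin 2) 1) (![1, 0] : Fin 2 → L)]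
        have e4 : (![1, 0] : Fin 2 → L) ∘ ⇑(Equiv.swap (0 : Fin 2) 1) = ![0, 1] := by
          funext i
          fin_cases i <;> rfl
        rw [e4]
        exact this.symm
      rw [e3, e3, mul_zero]
  · have h1' : algebraMap K k (x 1) ≠ 0 := by
      rw [Ne, FaithfulSMul.algebraMap_eq_zero_iff]
      exact h1
    rw [Pool.Agent.N753.SF.height_pair h1,
      Pool.Agent.N753.SF.height_pair (x := fun j => algebraMap K k (x j)) h1', ← map_div₀]
    exact Pool.Agent.Y557.OE.ht_ext _

open Pool.Agent.N753.SF in
/-- **One exceptional set for all finite subsets of points of degree at most five.** Let `K` be a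
number field and `ε > 0`. There is a set `E` of points of the projective line over `K` with the
following properties.
(1) `E` has at most `C B ^ (2 - ν)` points of height `H_K ≤ B` for all `B ≥ 1`, where `ν > 0`.
(2) For every number field `k` containing `K`, every finite set `S` of primes of `k`, every `q` and
all distinct points `α_1, …, α_q` of the projective line over `k` which have degree at most five
over `K` there is a constant `C` such that
`(q - ε) h(x) ≤ ∑_{v ∉ S} ∑_l λ⁽¹⁾_v(α_l, x) + C` for all points `x` of the line over `K` which are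
different from all the `α_l` and do not lie in `E`.
(3) The coefficient `q` is the best one: the right hand side of (2) is at most `q h(x) + C'` for all
`x`. -/
theorem result (K : Type) [Field K] [NumberField K] (ε : ℝ) (hε : 0 < ε) :
    ∃ E : Set (Projectivization K (Fin 2 → K)),
      (∃ ν C : ℝ, 0 < ν ∧ ∀ B : ℝ, 1 ≤ B →
        {P | P ∈ E ∧ Projectivization.mulHeight P ≤ B}.Finite ∧
        ({P | P ∈ E ∧ Projectivization.mulHeight P ≤ B}.ncard : ℝ) ≤ C * B ^ (2 - ν)) ∧
      ∀ (k : Type) [Field k] [NumberField k] [Algebra K k]
        (S : Set (HeightOneSpectrum (𝓞 k))) (q : ℕ) (α : Fin q → Fin 2 → k), S.Finite →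
        (∀ i, α i ≠ 0) → (∀ i j, i ≠ j → α i 0 * α j 1 - α i 1 * α j 0 ≠ 0) →
        (∃ C : ℝ, ∀ (x : Fin 2 → K) (hx : x ≠ 0),
          (∀ l, algebraMap K k (x 0) * α l 1 - algebraMap K k (x 1) * α l 0 ≠ 0) →
          counting S α (fun j => algebraMap K k (x j)) ≤ q * height x + C) ∧
        ((∀ i, degree K (α i) ≤ 5) →
          ∃ C : ℝ, ∀ (x : Fin 2 → K) (hx : x ≠ 0),
            (∀ l, algebraMap K k (x 0) * α l 1 - algebraMap K k (x 1) * α l 0 ≠ 0) →
            Projectivization.mk K x hx ∉ E →
            (q - ε) * height x ≤ counting S α (fun j => algebraMap K k (x j)) + C) := by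
  obtain ⟨E, hE, hmain⟩ := proj_main K hε
  refine ⟨E, hE, ?_⟩
  intro k _ _ _ S q α hS hα0 hα
  have hd : (0 : ℝ) < Module.finrank ℚ k := by exact_mod_cast (Module.finrank_pos (R := ℚ) (M := k))
  refine ⟨?_, ?_⟩
  · obtain ⟨C, hC⟩ := Pool.Agent.Y557.NF.cnt_le_logHeight S α
    refine ⟨C / Module.finrank ℚ k, fun x hx hf => ?_⟩
    have hxk : (fun j => algebraMap K k (x j)) ≠ 0 := by
      intro h
      apply hx
      funext j
      have := congrFun h j
      exact (FaithfulSMul.algebraMap_eq_zero_iff K k).1 this
    have h1 := hC (fun j => algebraMap K k (x j)) hxk ((form_iff α _).1 hf)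
    rw [← counting_eq, height_ext] at h1
    refine le_of_mul_le_mul_left (h1.trans_eq ?_) hd
    field_simp
  · intro hdeg
    rcases Nat.eq_zero_or_pos q with hq | hq
    · subst hq
      refine ⟨0, fun x hx _ _ => ?_⟩
      have h1 : counting S α (fun j => algebraMap K k (x j)) = 0 := by
        unfold counting
        simp
      have h2 : 0 ≤ height x := div_nonneg (Height.logHeight_nonneg x) (Nat.cast_nonneg _)
      rw [h1, Nat.cast_zero]
      nlinarith
    obtain ⟨C, hC⟩ := hmain k S hS q α hq hα0 hα hdeg
    refine ⟨C / Module.finrank ℚ k, fun x hx hf hxE => ?_⟩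
    have h1 := hC x hx hxE ((form_iff α _).1 hf)
    rw [← counting_eq] at h1
    have hdK : (0 : ℝ) < Module.finrank ℚ K := by
      exact_mod_cast (Module.finrank_pos (R := ℚ) (M := K))
    have e0 : (Module.finrank K k : ℝ) * ((q - ε) * Height.logHeight x) =
        (Module.finrank ℚ k : ℝ) * ((q - ε) * height x) := by
      unfold height
      rw [finrank_eq K k]
      field_simp
    rw [e0] at h1
    refine le_of_mul_le_mul_left (h1.trans_eq ?_) hd
    field_simp

end Pool.Agent.Results.MP_4d5ce1_nt.UniversalSetDegreeFive
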